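import Pool.Agent.X72.Zf.C

open Finset

namespace Pool.Agent.Results.MP_4451bf_co.CliqueThreshold

/-- the vertices that are blue at the end of the zero forcing process started from the set `B` -/
inductive Blue {V : Type} (G : SimpleGraph V) (B : Set V) : V → Prop
  | base (v : V) : v ∈ B → Blue G B v
  | step (u v : V) : Blue G B u → G.Adj u v → (∀ x, G.Adj u x → x ≠ v → Blue G B x) → Blue G B v

/-- `B` is a zero forcing set of `G` -/
def IsZeroForcing {V : Type} (G : SimpleGraph V) (B : Set V) : Prop :=
  ∀ v, Blue G B v

open Classical in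
/-- the probability that the random subset of the vertices of `G` (each vertex independently with
probability `p`) is a zero forcing set -/
noncomputable def forcingProb {V : Type} [Fintype V] (G : SimpleGraph V) (p : ℝ) : ℝ :=
  ∑ S : Finset V, if IsZeroForcing G (S : Set V) then
    p ^ #S * (1 - p) ^ (Fintype.card V - #S) else 0

lemma blue_iff {V : Type} (G : SimpleGraph V) (B : Set V) (v : V) :
    Blue G B v ↔ Pool.Agent.X72.Zf.Blue G B v := by
  constructor
  · intro h
    induction h with
    | base v hv => exact .base v hv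
    | step u v _ h2 _ ih1 ih2 => exact .step u v ih1 h2 ih2
  · intro h
    induction h with
    | base v hv => exact .base v hv
    | step u v _ h2 _ ih1 ih2 => exact .step u v ih1 h2 ih2

lemma forcingProb_eq {V : Type} [Fintype V] [DecidableEq V] (G : SimpleGraph V) (p : ℝ) :
    forcingProb G p = Pool.Agent.X72.Zf.prob G p := by
  classical
  unfold forcingProb Pool.Agent.X72.Zf.prob Pool.Agent.X72.Zf.E
  rw [powerset_univ]
  apply sum_congr rfl
  intro S _
  beta_reduce
  rw [card_univ]
  by_cases h : IsZeroForcing G (S : Set V)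
  · have h' : ∀ v, Pool.Agent.X72.Zf.Blue G (S : Set V) v := fun v => (blue_iff G _ v).1 (h v)
    rw [if_pos h, if_pos h', mul_one]
  · have h' : ¬ ∀ v, Pool.Agent.X72.Zf.Blue G (S : Set V) v :=
      fun h2 => h fun v => (blue_iff G _ v).2 (h2 v)
    rw [if_neg h, if_neg h', mul_zero]

/-- there is no absolute constant `c > 0` such that every graph `G` on a finite vertex set `V` with
a clique `s` (with at least one vertex) has threshold probability at least `c √(|s| / |V|)` -/
theorem result :
    ¬ ∃ c : ℝ, 0 < c ∧ ∀ (V : Type) (_ : Fintype V) (G : SimpleGraph V) (s : Finset V),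
      1 ≤ #s → G.IsClique (s : Set V) → ∀ p : ℝ, 0 ≤ p → p ≤ 1 → forcingProb G p = 1 / 2 →
        c * Real.sqrt (#s / Fintype.card V) ≤ p := by
  rintro ⟨c, hc, H⟩
  obtain ⟨W, i1, i2, G, s, h1, h2, p, h3, h4, h5, h6⟩ := Pool.Agent.X72.Zf.main hc
  have := H W i1 G s h1 h2 p h3 h4 ((forcingProb_eq G p).trans h5)
  linarith

end Pool.Agent.Results.MP_4451bf_co.CliqueThreshold
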